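import Pool.Agent.H.MP_b6d12e_lc.A

set_option autoImplicit false

/-! A double origin space. -/

namespace Pool.Agent.H.MP_ab6b4f_lc

open Topology TopologicalSpace Set Pool.Agent.H.MP_b6d12e_lc Pool.Agent.Lib.helper21.PR
open Pool.Agent.Lib.helper21

attribute [local irreducible] Primrec Computable

def jn (A B : Set ℕ) : Set ℕ := {n | n % 2 = 0 ∧ n / 2 ∈ A ∨ n % 2 = 1 ∧ n / 2 ∈ B}

open Classical in
noncomputable def chi (X : Set ℕ) : ℕ →. ℕ := fun n => Part.some (if n ∈ X then 1 else 0)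

theorem chi_eq (X : Set ℕ) : chi X = Fn.orc fun n => cd (n ∈ X) := funext fun n => by
  by_cases h : n ∈ X
  · simp [chi, Fn.orc, h, cd_true.2]
  · simp [chi, Fn.orc, h, Bool.eq_false_iff.2 (mt cd_true.1 id)]

theorem jn_open {T : Type} [TopologicalSpace T] {A B : T → Set ℕ} (h : ∀ e, IsOpen {x | e ∈ A x})
    (k : ∀ e, IsOpen {x | e ∈ B x}) (e : ℕ) : IsOpen {x | e ∈ jn (A x) (B x)} :=
  (isOpen_const.and (h _)).union (isOpen_const.and (k _))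

structure D where
  a : ℕ
  b : ℕ

instance : Countable D :=
  Function.Injective.countable (f := fun d : D => (d.a, d.b)) fun ⟨_, _⟩ ⟨_, _⟩ h => by simpa using h

def Bs (x : D) (k : ℕ) : Set D := {d | x.a = 0 ∧ d.b % 2 = x.b % 2 ∧ (d.a = 0 ∨ k < d.a ∧ k < d.b) ∨
  x.a ≠ 0 ∧ d.a = x.a ∧ (d.b = x.b ∨ x.b = 0 ∧ k < d.b)}

instance : TopologicalSpace D := tb Bs fun x k l h d => by simp only [Bs, mem_ofPred_eq]; omega

theorem op {U : Set D} {k : ℕ} (h : ∀ x ∈ U, ∀ d ∈ Bs x k, d ∈ U) : IsOpen U := fun x a => ⟨k, h x a⟩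

def XX (x : ℕ → D) : Set ℕ := {n | n.unpair.2 % 2 = 0 ∧ (x n.unpair.1).a = n.unpair.2 / 2 + 1 ∨
  n.unpair.2 % 2 = 1 ∧ (x n.unpair.1).a ≠ 0 ∧ (x n.unpair.1).b = n.unpair.2 / 2 + 1}

def AA (r : ℕ) (x : ℕ → D) : Set ℕ := {j | (x j).a = 0 ∧ (x j).b % 2 = r}
def PP (r : ℕ) (x : ℕ → D) : Set ℕ := {j | (x j).a ≠ 0 ∧ (x j).b ≠ 0 ∧ (x j).b % 2 = r}

def S (x : ℕ → D) : Set ℕ := jn (jn (jn (XX x) (XX x)ᶜ) (AA 0 x ∪ PP 0 x)) (AA 1 x ∪ PP 1 x)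

theorem S_open (e : ℕ) : IsOpen {x | e ∈ S x} := by
  have a : ∀ r e, IsOpen {x | e ∈ AA r x ∪ PP r x} := fun r e =>
    (op (U := {d | d.a = 0 ∧ d.b % 2 = r ∨ d.a ≠ 0 ∧ d.b ≠ 0 ∧ d.b % 2 = r}) (k := 0) fun x a d => by
      simp only [Bs, mem_ofPred_eq] at *; omega).preimage (continuous_apply (A := fun _ : ℕ => D) e)
  refine jn_open (jn_open (jn_open (fun e => ?_) fun e => ?_) (a 0)) (a 1) e
  · exact (op (U := {d | e.unpair.2 % 2 = 0 ∧ d.a = e.unpair.2 / 2 + 1 ∨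
      e.unpair.2 % 2 = 1 ∧ d.a ≠ 0 ∧ d.b = e.unpair.2 / 2 + 1}) (k := 0) fun x a d => by
        simp only [Bs, mem_ofPred_eq] at *; omega).preimage 
          (continuous_apply (A := fun _ : ℕ => D) e.unpair.1)
  · exact (op (U := {d | ¬ (e.unpair.2 % 2 = 0 ∧ d.a = e.unpair.2 / 2 + 1 ∨
      e.unpair.2 % 2 = 1 ∧ d.a ≠ 0 ∧ d.b = e.unpair.2 / 2 + 1)}) (k := e.unpair.2 + 1) fun x a d => by
        simp only [Bs, mem_ofPred_eq] at *; omega).preimage 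
          (continuous_apply (A := fun _ : ℕ => D) e.unpair.1)

theorem ce {X : Set ℕ} {p : ℕ → Prop} {R : ℕ → Prop} (h : Primrec fun t => cd (R t))
    (k : ∀ j, p j ↔ ∃ t, R t ∧ Nat.pair j t ∈ X) :
    ∃ g : ℕ →. ℕ, TuringReducible g (chi X) ∧ ∀ n, p n ↔ (g n).Dom := by
  have := ci_self fun n => cd (n ∈ X)
  rw [chi_eq]
  exact dom ((i_exists (R := fun j t => R t ∧ Nat.pair j t ∈ X) (i_and (i_re (r_prim (h.comp .snd)))
    (i_ci (ci_comp (g := fun z : ℕ × ℕ => Nat.pair z.1 z.2) this (by fun_prop))))).of_eq fun j => by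
      simp [k])

theorem ce_P (r : ℕ) (x : ℕ → D) :
    ∃ g : ℕ →. ℕ, TuringReducible g (chi (XX x)) ∧ ∀ n, n ∈ PP r x ↔ (g n).Dom :=
  ce (R := fun t => t % 2 = 1 ∧ (t / 2 + 1) % 2 = r) (by fun_prop) fun j => by
    simp only [PP, XX, mem_ofPred_eq, Nat.unpair_pair]
    exact ⟨fun h => ⟨2 * ((x j).b - 1) + 1, by omega⟩, fun ⟨t, h⟩ => by omega⟩

theorem ce_A (x : ℕ → D) :
    ∃ g : ℕ →. ℕ, TuringReducible g (chi (XX x)) ∧ ∀ n, n ∈ (AA 0 x ∪ AA 1 x)ᶜ ↔ (g n).Dom :=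
  ce (R := fun t => t % 2 = 0) (by fun_prop) fun j => by
    simp only [AA, XX, mem_ofPred_eq, Nat.unpair_pair, mem_compl_iff, mem_union]
    exact ⟨fun h => ⟨2 * ((x j).a - 1), by omega⟩, fun ⟨t, h⟩ => by omega⟩

theorem clo {x y : D} (hx : x.a = 0) (hy : y.a = 0) (U V : Set D) (hU : IsOpen U) (hV : IsOpen V)
    (a : x ∈ U) (b : y ∈ V) : (closure U ∩ closure V).Nonempty := by
  obtain ⟨k, hk⟩ := hU x a
  obtain ⟨l, hl⟩ := hV y b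
  have : ∀ {x : D} {U : Set D} {m : ℕ}, x.a = 0 → m ≤ k + l → Bs x m ⊆ U →
      (⟨k + l + 1, 0⟩ : D) ∈ closure U := fun {x U m} c d e => mem_closure_iff.2 fun O f g => by
    obtain ⟨r, hr⟩ := f _ g
    exact ⟨⟨k + l + 1, 2 * (m + r + 1) + x.b % 2⟩,
      hr (.inr ⟨by simp, rfl, .inr ⟨rfl, by dsimp only; omega⟩⟩),
      e (by simp only [Bs, mem_ofPred_eq]; omega)⟩
  exact ⟨_, this hx (by omega) hk, this hy (by omega) hl⟩

theorem main {Y : Type} [t : TopologicalSpace Y] [T25Space Y] {γ : ℕ → Set Y}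
    (h : t = generateFrom (range γ)) : ¬ ∀ x, ∃ y, ∃ W V : ℕ × List ℕ → Prop, REPred W ∧ REPred V ∧
      (∀ n, y ∈ γ n ↔ ∃ l, W (n, l) ∧ ∀ e ∈ l, e ∈ S x) ∧
        ∀ n, n ∈ S x ↔ ∃ l, V (n, l) ∧ ∀ e ∈ l, y ∈ γ e := fun k => by
  obtain ⟨Z, g, n, x, y, h1, h2, h3, h4, h5, ⟨j, a, b⟩, h6, h7⟩ := pair S_open h k ⟨0, 0⟩ ⟨0, 1⟩
  have := Set.ext_iff.1 (h7 (ury h1 h2 h3 h4 h5 fun i U V c d e f => (h6 i).elim
    (fun u => ⟨x i, subset_closure e, subset_closure (u ▸ f)⟩) fun u => clo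
      (u.1.elim (· ▸ rfl) (· ▸ rfl)) (u.2.elim (· ▸ rfl) (· ▸ rfl)) U V c d e f)) (2 * j + 1)
  simp [S, jn, AA, PP, show (2 * j + 1) / 2 = j by omega, a, b] at this

end Pool.Agent.H.MP_ab6b4f_lc
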